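import Pool.Graph.R_pool_sql_team_39128cda.Results.MP_d104cf_an.Yes

/-!
# `G_δ`-point measures on sick compacta: the image of `C(K)` is analytic, and Borel if the
support of the measure is open
-/

set_option autoImplicit false

namespace Pool.Agent.Results.MP_d104cf_an.BorelImage

open Set Filter Topology MeasureTheory TopologicalSpace
open scoped ENNReal BoundedContinuousFunction CompactlySupported
open Pool.Agent.H.MP_d104cf_an Pool.Agent.Results.MP_d104cf_an.Yes

section
variable {K : Type} [TopologicalSpace K] [CompactSpace K] [T2Space K] [MeasurableSpace K]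
  [BorelSpace K] {E : Type} [NormedAddCommGroup E] [NormedSpace ℝ E] [Lattice E]
  [HasSolidNorm E] [IsOrderedAddMonoid E] [PosSMulMono ℝ E] {u : E}

/-- the indicator of a clopen set -/
noncomputable def ind (F : Set K) (hF : IsClopen F) : C(K, ℝ) :=
  ⟨LocallyConstant.charFn ℝ hF, (LocallyConstant.charFn ℝ hF).continuous⟩

lemma ind_apply {F : Set K} (hF : IsClopen F) (k : K) : ind F hF k = F.indicator 1 k := rfl

lemma abs_le_ind {e : K ≃ₜ H.MP_d104cf_an.Ku u} (hu : 0 ≤ u) {F : Set K} (hF : IsClopen F)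
    {w y : E} {g : C(K, ℝ)} (hw : Rep e w (ind F hF)) (hy : Rep e y g) (n : ℕ) :
    |y| ≤ (n : ℝ) • w ↔ (∀ k, |g k| ≤ n) ∧ ∀ k, k ∉ F → g k = 0 := by
  have b := hw.smul hu (n : ℝ)
  have c := hy.smul hu (-1)
  rw [abs_le', hy.le_iff hu b, ← neg_one_smul ℝ y, c.le_iff hu b]
  simp only [ContinuousMap.le_def, ContinuousMap.smul_apply, smul_eq_mul, ind_apply, neg_mul,
    one_mul]
  constructor
  · rintro ⟨h1, h2⟩
    refine ⟨fun k => ?_, fun k hk => ?_⟩
    · have a1 := h1 k
      have a2 := h2 k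
      by_cases hk : k ∈ F
      · rw [indicator_of_mem hk, Pi.one_apply, mul_one] at a1 a2
        exact abs_le.2 ⟨by linarith, a1⟩
      · rw [indicator_of_notMem hk, mul_zero] at a1 a2
        have : g k = 0 := le_antisymm a1 (by linarith)
        rw [this, abs_zero]
        exact Nat.cast_nonneg n
    · have a1 := h1 k
      have a2 := h2 k
      rw [indicator_of_notMem hk, mul_zero] at a1 a2
      exact le_antisymm a1 (by linarith)
  · rintro ⟨h1, h2⟩
    refine ⟨fun k => ?_, fun k => ?_⟩ <;> by_cases hk : k ∈ F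
    · rw [indicator_of_mem hk, Pi.one_apply, mul_one]
      exact (abs_le.1 (h1 k)).2
    · rw [indicator_of_notMem hk, mul_zero, h2 k hk]
    · rw [indicator_of_mem hk, Pi.one_apply, mul_one]
      linarith [(abs_le.1 (h1 k)).1]
    · rw [indicator_of_notMem hk, mul_zero, h2 k hk, neg_zero]

end

/-- Let `K` be a sick compact space and `μ` a `G_δ` point of `P(K)`. Then `L₁(μ)` is separable and
the image of `C(K)` in `L₁(μ)` is analytic. If moreover the support `F` of `μ` is open, in
particular if `μ` is strictly positive, then the image is a Borel set. -/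
theorem result (K : Type) [TopologicalSpace K] [CompactSpace K] [T2Space K] [MeasurableSpace K]
    [BorelSpace K] (E : Type) [NormedAddCommGroup E] [NormedSpace ℝ E] [Lattice E]
    [HasSolidNorm E] [IsOrderedAddMonoid E] [PosSMulMono ℝ E] [CompleteSpace E]
    [SeparableSpace E] (u : E) (hu : 0 ≤ u) (hu0 : u ≠ 0)
    (hK : Nonempty (K ≃ₜ Pool.Agent.Results.MP_d104cf_an.Yes.Ku u))
    (μ : P K) (hμ : IsGδ ({μ} : Set (P K))) :
    SeparableSpace (Lp ℝ 1 (μ.1 : Measure K)) ∧
      AnalyticSet (range (ContinuousMap.toLp 1 (μ.1 : Measure K) ℝ :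
        C(K, ℝ) →L[ℝ] Lp ℝ 1 (μ.1 : Measure K))) ∧
      ∀ F : Set K, IsClopen F → (μ.1 : Measure K) Fᶜ = 0 →
        (∀ U : Set K, IsOpen U → (U ∩ F).Nonempty → 0 < (μ.1 : Measure K) U) →
        @MeasurableSet _ (borel (Lp ℝ 1 (μ.1 : Measure K)))
          (range (ContinuousMap.toLp 1 (μ.1 : Measure K) ℝ :
            C(K, ℝ) →L[ℝ] Lp ℝ 1 (μ.1 : Measure K))) := by
  obtain ⟨hsep, hana⟩ := Pool.Agent.Results.MP_d104cf_an.Yes.result K E u hu hu0 hK μ hμ
  refine ⟨hsep, hana, fun F hF hF0 hpos => ?_⟩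
  obtain ⟨e⟩ : Nonempty (K ≃ₜ H.MP_d104cf_an.Ku u) := hK
  obtain ⟨D, hD, h⟩ := approx hμ
  choose T hT using surj (e := e) hu
  set w : E := T (ind F hF) with hwdef
  have hw : Rep e w (ind F hF) := hT _
  borelize (E × Lp ℝ 1 (μ.1 : Measure K))
  borelize ↥(Lp ℝ 1 (μ.1 : Measure K))
  let S : Set (E × Lp ℝ 1 (μ.1 : Measure K)) := (⋃ n : ℕ, {z | |z.1| ≤ (n : ℝ) • w}) ∩
    ⋂ d ∈ D, (({z | z.1 ≤ T d}ᶜ ∪ {z | z.2 ≤ J μ d}) ∩ ({z | -z.1 ≤ T d}ᶜ ∪ {z | -z.2 ≤ J μ d}))
  have hS : MeasurableSet S := by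
    refine (MeasurableSet.iUnion fun n => IsClosed.measurableSet ?_).inter
      (MeasurableSet.biInter hD fun d _ => MeasurableSet.inter
        ((IsClosed.measurableSet ?_).compl.union (IsClosed.measurableSet ?_))
        ((IsClosed.measurableSet ?_).compl.union (IsClosed.measurableSet ?_)))
    · exact isClosed_le (continuous_fst.sup continuous_fst.neg) continuous_const
    · exact isClosed_le continuous_fst continuous_const
    · exact isClosed_le continuous_snd continuous_const
    · exact isClosed_le continuous_fst.neg continuous_const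
    · exact isClosed_le continuous_snd.neg continuous_const
  have neg : ∀ {y g}, Rep e y g → Rep e (-y) (-g) := fun a => by simpa using a.smul hu (-1)
  -- members of `S` are represented by continuous functions vanishing off `F`
  have mem : ∀ y z, (y, z) ∈ S → ∃ g, Rep e y g ∧ J μ g = z ∧ ∀ k, k ∉ F → g k = 0 := by
    rintro y z ⟨h1, h2⟩
    obtain ⟨n, hn⟩ := mem_iUnion.1 h1
    have hn' : |y| ≤ (n : ℝ) • w := hn
    have hwu : w ≤ u := (hw.le_iff hu (Rep.one hu)).2 fun k => by
      show F.indicator 1 k ≤ (1 : ℝ)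
      by_cases hk : k ∈ F
      · rw [indicator_of_mem hk]; simp
      · rw [indicator_of_notMem hk]; exact zero_le_one
    have hb : Bd u y := ⟨n, hn'.trans (smul_le_smul_of_nonneg_left hwu (Nat.cast_nonneg n))⟩
    obtain ⟨g, hg⟩ := rep_ex (e := e) hu hb
    rw [mem_iInter₂] at h2
    have a : z ≤ J μ g := by
      refine closure_minimal (t := Ici z) ?_ isClosed_Ici (J_cl h g)
      rintro _ ⟨d, ⟨a, b⟩, rfl⟩
      exact (h2 d a).1.resolve_left (not_not.2 ((hg.le_iff hu (hT d)).2 b))
    have b : -z ≤ J μ (-g) := by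
      refine closure_minimal (t := Ici (-z)) ?_ isClosed_Ici (J_cl h (-g))
      rintro _ ⟨d, ⟨a, b⟩, rfl⟩
      exact (h2 d a).2.resolve_left (not_not.2 (((neg hg).le_iff hu (hT d)).2 b))
    rw [map_neg, neg_le_neg_iff] at b
    exact ⟨g, hg, le_antisymm b a, ((abs_le_ind hu hF hw hg n).1 hn').2⟩
  have eq : range (J μ) = Prod.snd '' S := by
    ext z
    constructor
    · rintro ⟨g0, rfl⟩
      set g : C(K, ℝ) := g0 * ind F hF with hgdef
      have hJ : J μ g0 = J μ g := by
        rw [Lp.ext_iff]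
        have hae : ∀ᵐ x ∂(μ.1 : Measure K), x ∈ F := by
          rw [ae_iff]; exact hF0
        filter_upwards [ContinuousMap.coeFn_toLp (p := 1) (𝕜 := ℝ) (μ.1 : Measure K) g0,
          ContinuousMap.coeFn_toLp (p := 1) (𝕜 := ℝ) (μ.1 : Measure K) g, hae] with x a b c
        rw [a, b, hgdef, ContinuousMap.mul_apply, ind_apply, indicator_of_mem c, Pi.one_apply,
          mul_one]
      rw [hJ]
      refine ⟨(T g, J μ g), ⟨mem_iUnion.2 ⟨⌈‖g‖⌉₊, ?_⟩,
        mem_biInter fun d _ => ⟨or_iff_not_imp_left.2 fun a => ?_,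
          or_iff_not_imp_left.2 fun a => ?_⟩⟩, rfl⟩
      · show |T g| ≤ ((⌈‖g‖⌉₊ : ℕ) : ℝ) • w
        refine (abs_le_ind hu hF hw (hT g) _).2 ⟨fun k => ?_, fun k hk => ?_⟩
        · exact (g.norm_coe_le_norm k).trans (Nat.le_ceil _)
        · rw [hgdef, ContinuousMap.mul_apply, ind_apply, indicator_of_notMem hk, mul_zero]
      · exact J_mono μ (((hT g).le_iff hu (hT d)).1 (not_not.1 a))
      · have := J_mono μ (((neg (hT g)).le_iff hu (hT d)).1 (not_not.1 a))
        rwa [map_neg] at this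
    · rintro ⟨⟨y, z⟩, h1, rfl⟩
      obtain ⟨g, -, hg, -⟩ := mem y z h1
      exact ⟨g, hg⟩
  have inj : InjOn Prod.snd S := by
    rintro ⟨y, z⟩ h1 ⟨y', z'⟩ h2 (hz : z = z')
    subst hz
    obtain ⟨g, hg, hgz, hg0⟩ := mem y z h1
    obtain ⟨g', hg', hgz', hg0'⟩ := mem y' z h2
    have hgg : g = g' := by
      by_contra hne
      have hex : ∃ k, g k ≠ g' k := by
        by_contra hh
        push Not at hh
        exact hne (ContinuousMap.ext hh)
      obtain ⟨k, hk⟩ := hex
      have hkF : k ∈ F := by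
        by_contra hkF
        exact hk (by rw [hg0 k hkF, hg0' k hkF])
      have hopen : IsOpen {x | g x ≠ g' x} := isOpen_ne_fun g.continuous g'.continuous
      have hp := hpos _ hopen ⟨k, hk, hkF⟩
      have hae : (g : K → ℝ) =ᵐ[(μ.1 : Measure K)] g' := by
        have h3 : J μ g = J μ g' := hgz.trans hgz'.symm
        rw [Lp.ext_iff] at h3
        filter_upwards [ContinuousMap.coeFn_toLp (p := 1) (𝕜 := ℝ) (μ.1 : Measure K) g,
          ContinuousMap.coeFn_toLp (p := 1) (𝕜 := ℝ) (μ.1 : Measure K) g', h3] with x a b c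
        rw [← a, ← b, c]
      exact hp.ne' (ae_iff.1 hae)
    subst hgg
    have : y = y' := le_antisymm ((hg.le_iff hu hg').2 le_rfl) ((hg'.le_iff hu hg).2 le_rfl)
    rw [this]
  have fin := hS.image_of_continuousOn_injOn continuous_snd.continuousOn inj
  rw [← eq, BorelSpace.measurable_eq (α := ↥(Lp ℝ 1 (μ.1 : Measure K)))] at fin
  exact fin

end Pool.Agent.Results.MP_d104cf_an.BorelImage
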